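import Pool.Agent.Helper72.EP.Spec1

namespace ErdPos

open Finset

theorem st_CLO2 : ST_CLO2 := by
  intro V _ _ G W T R hTW hR a ha b hb hab i
  have hne : ((a, i) : V × Bool) ≠ (b, i) := fun h => hab (congrArg Prod.fst h)
  have hRa := hR.1 (a, i) ha
  have hRb := hR.1 (b, i) hb
  have hU : Conn (BT G W T) (R (a, i) ∪ R (b, i)) :=
    hRa.1.union hRb.1 (Or.inl (hR.2 (a, i) (b, i) ha hb hne).2)
  have hnadj : ¬ (BT G W T).Adj (a, i) (b, i) := by
    rintro ⟨_, _, h | h⟩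
    · exact h.2 ⟨ha, hb⟩
    · exact hab h.1
  obtain ⟨L', hL'U, haL', hbL', hL'c, hLa, hLb⟩ := link2 hU
    (mem_union_left _ hRa.2) (mem_union_right _ hRb.2) hne hnadj
  have hW : ∀ x ∈ L', x.1 ∈ W := by
    intro x hx
    by_cases h : ({x} : Finset (V × Bool)) = L'
    · obtain ⟨y, hy, hay⟩ := hLa
      rw [← h, mem_singleton] at hy
      subst hy
      exact hay.2.1
    · obtain ⟨u, hu, v, _, huv⟩ := hL'c.2 {x} (singleton_subset_iff.2 hx)
        (singleton_nonempty x) h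
      rw [mem_singleton] at hu
      subst hu
      exact huv.1
  have hT : ∀ x ∈ L', x.1 ∉ T := by
    intro x hx hxT
    have hxx := (hR.1 x hxT).2
    rcases mem_union.1 (hL'U hx) with h | h
    · by_cases he : x = (a, i)
      · exact haL' (he ▸ hx)
      · exact Finset.disjoint_left.1 (hR.2 x (a, i) hxT ha he).1 hxx h
    · by_cases he : x = (b, i)
      · exact hbL' (he ▸ hx)
      · exact Finset.disjoint_left.1 (hR.2 x (b, i) hxT hb he).1 hxx h
  have hAd : ∀ c : V, c ∈ T → Ad (BT G W T) (c, i) L' → Ad G c (L'.image Prod.fst) := by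
    rintro c hc ⟨y, hy, hcy⟩
    refine ⟨y.1, mem_image_of_mem _ hy, ?_⟩
    obtain ⟨_, _, h | h⟩ := hcy
    · exact h.1
    · exact absurd (h.1 ▸ hc) (hT y hy)
  refine ⟨L'.image Prod.fst, ?_, ⟨?_, ?_⟩, hAd a ha hLa, hAd b hb hLb, ?_⟩
  · intro v hv
    obtain ⟨x, hx, rfl⟩ := mem_image.1 hv
    exact mem_sdiff.2 ⟨hW x hx, hT x hx⟩
  · exact hL'c.1.image _
  · intro B hB hBne hBL
    have h1 : L'.filter (fun x => x.1 ∈ B) ⊆ L' := filter_subset _ _
    have h2 : (L'.filter (fun x => x.1 ∈ B)).Nonempty := by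
      obtain ⟨v, hv⟩ := hBne
      obtain ⟨x, hx, rfl⟩ := mem_image.1 (hB hv)
      exact ⟨x, mem_filter.2 ⟨hx, hv⟩⟩
    have h3 : L'.filter (fun x => x.1 ∈ B) ≠ L' := by
      intro h
      apply hBL
      refine subset_antisymm hB fun v hv => ?_
      obtain ⟨x, hx, rfl⟩ := mem_image.1 hv
      rw [← h] at hx
      exact (mem_filter.1 hx).2
    obtain ⟨x, hx, y, hy, hxy⟩ := hL'c.2 _ h1 h2 h3
    have hx' := mem_filter.1 hx
    have hy' := mem_sdiff.1 hy
    have hyB : y.1 ∉ B := fun h => hy'.2 (mem_filter.2 ⟨hy'.1, h⟩)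
    refine ⟨x.1, hx'.2, y.1, mem_sdiff.2 ⟨mem_image_of_mem _ hy'.1, hyB⟩, ?_⟩
    obtain ⟨_, _, h | h⟩ := hxy
    · exact h.1
    · exact absurd (h.1 ▸ hx'.2) hyB
  · intro v hv
    obtain ⟨x, hx, rfl⟩ := mem_image.1 hv
    exact ⟨x.2, hL'U hx⟩

end ErdPos
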